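import Mathlib
import Pool.Agent.Helper110.MatherDefs
import Pool.Agent.Helper110.MMain

/-!
# Singular Mather sets on the two-torus and differentiability of `β` at `0`

For an autonomous Tonelli Lagrangian `L` on `T²` whose minimal average action `β` is differentiable
at `0`, no Mather set contains both a fixed point of the Euler-Lagrange flow and a lamination
without closed leaf (more generally, a nonempty compact invariant set without fixed points and
without periodic orbits).

Idea of the proof. Let `c` be a class whose Mather set contains a fixed point and such a set `Λ`;
then `α(c) = min α`. Take a recurrent point of `Λ`, close up its orbit after a long time, and tilt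
the closed curve slightly so that it becomes a closed curve `σ` everywhere transverse to the
(Lipschitz) direction field near `Λ`. A smoothed Poincaré dual `κ` of `σ` is a closed one-form
supported near `Λ`; if `u` is a semiconcave critical subsolution then `H(x, c + du - ε κ) ≤ α(c)`
for small `ε > 0`, with the right sign of `κ`. Recurrence shows that `κ` is not exact, so
`c - ε [κ] ≠ c` is a second subgradient of `β` at `0`.
-/

namespace Pool.Agent.Results.MP_c99f5e_an.NoSingularLamination

open Pool.Agent.MatherTorus

theorem result (L : TTorus → ℝ) (Φ : Flow ℝ TTorus) (β : Plane → ℝ)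
    (hL : IsTonelli L) (hΦ : IsEulerLagrangeFlow L Φ) (hβ : IsBeta L Φ β)
    (hdiff : DifferentiableAt ℝ β 0) (c : Plane →L[ℝ] ℝ) :
    ¬ ((∃ p ∈ matherSet L Φ c, IsFixedPt Φ p) ∧
      ∃ Λ ⊆ matherSet L Φ c, IsAperiodic Φ Λ) :=
  Pool.H110M.main L Φ β hL hΦ hβ hdiff c

end Pool.Agent.Results.MP_c99f5e_an.NoSingularLamination
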